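import Pool.Agent.H99.GEN.Gr
import Pool.Agent.H71.GEN.Lip

/-!
# Fullness below the cells

`full_fam`: if the coordinates `ε` have closed labels, each over the ones before, then the digits of
these coordinates below the cells of side `2 ^ (-u)` have the entropy which is missing in the cells,
given their cells and any closed function.
`full_cls`: the form for classes: exactness of the coordinates and attained labels give fullness
below all cells which are finer than the thresholds.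
-/

set_option autoImplicit false

namespace Pool.EXW

open Finset Real MvPolynomial
open Pool.Agent.H49.Ent Pool.Agent.H32.Dense Pool.STK Pool.KA Pool.KSAT Pool.K2S Pool.PB Pool.GEN
open Pool.S6C
open Pool.UNJ (ceI)

variable {m J : ℕ}

theorem abs_floor_sub (a b : ℝ) : |((⌊a⌋ - ⌊b⌋ : ℤ) : ℝ)| ≤ |a - b| + 1 := by
  have h1 := Int.floor_le a
  have h2 := Int.lt_floor_add_one a
  have h3 := Int.floor_le b
  have h4 := Int.lt_floor_add_one b
  have h5 := le_abs_self (a - b)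
  have h6 := neg_abs_le (a - b)
  rw [abs_le]
  push_cast
  constructor <;> linarith

/-- The label of a coordinate determines its cell up to few choices. -/
theorem one_cell {F : Fam m J} {A : F.Ω → Prop} {I : Finset (Fin m)} {k : Fin m}
    {K e r w ρ P u : ℕ} {V : Type} {z : PtT F → V} {z' : LnT F → V}
    {G : V → MvPolynomial (Option (Fin m)) ℝ} (h : LbOK F I k K e r w ρ P A z z' G)
    (hρ : ρ ≤ u) (hP : P ≤ u) {q : F.Ω → ℝ} (hq : IsLaw q) (hqA : ∀ ω, 0 < q ω → A ω)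
    {S : Type*} {c : F.Ω → S} (hc : ∀ ω ω', 0 < q ω → 0 < q ω' → c ω = c ω' →
      (∀ i ∈ I, ⌊(2 : ℝ) ^ u * F.x ω i⌋ = ⌊(2 : ℝ) ^ u * F.x ω' i⌋) ∧
        z' (slam F w ω) = z' (slam F w ω') ∧ F.T ω = F.T ω') :
    CH q (fun ω => ⌊(2 : ℝ) ^ u * F.x ω k⌋) c ≤
      ((u : ℝ) - P + e) * Real.log 2 + Real.log (2 * m + 9) := by
  classical
  have hu0 : (0 : ℝ) < 2 ^ u := by positivity
  have hM : ∀ ω ω', 0 < q ω → 0 < q ω' → c ω = c ω' →
      |((⌊(2 : ℝ) ^ u * F.x ω k⌋ - ⌊(2 : ℝ) ^ u * F.x ω' k⌋ : ℤ) : ℝ)| ≤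
        2 ^ (u - P + e) * (m + 4) := by
    intro ω ω' hω hω' hcc
    obtain ⟨h1, h2, h3⟩ := hc ω ω' hω hω' hcc
    have ht : F.t ω = F.t ω' := by
      unfold Fam.t
      rw [h3]
    obtain ⟨y, hy⟩ : ∃ y : Option (Fin m) → ℝ, y = fun o => match o with
        | none => F.t ω
        | some i => if i ∈ I then F.x ω' i else F.x ω i := ⟨_, rfl⟩
    have hyn : y none = bt F ω none := by rw [hy]; rfl
    have hyI : ∀ i ∈ I, y (some i) = F.x ω' i := by
      intro i hi
      rw [hy]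
      exact if_pos hi
    have hyO : ∀ i ∉ I, y (some i) = F.x ω i := by
      intro i hi
      rw [hy]
      exact if_neg hi
    have hd : ∀ o, |y o - bt F ω o| ≤ 1 / 2 ^ u := by
      intro o
      rcases o with - | i
      · rw [hyn, sub_self, abs_zero]
        positivity
      · by_cases hi : i ∈ I
        · rw [hyI i hi]
          change |F.x ω' i - F.x ω i| ≤ _
          have h4 := Int.abs_sub_lt_one_of_floor_eq_floor (h1 i hi)
          rw [← mul_sub, abs_mul, abs_of_pos hu0] at h4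
          rw [abs_sub_comm, le_div_iff₀ hu0]
          linarith
        · rw [hyO i hi]
          change |F.x ω i - F.x ω i| ≤ _
          rw [sub_self, abs_zero]
          positivity
    have h4 : eval (bt F ω') (G (z' (slam F w ω'))) = eval y (G (z' (slam F w ω))) := by
      rw [← h2]
      refine h.dep _ _ _ ?_ fun i hi => ?_
      · rw [hyn]
        exact ht.symm
      · rw [hyI i hi]
        rfl
    have h5 := mvσ (G (z' (slam F w ω))) (bt F ω) y (2 ^ e) fun y' hy' i =>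
      h.lip ω (hqA ω hω) y' (fun o => ((hy' o).trans (hd o)).trans (inv_mono hρ)) i
    have h6 : ∑ o, |y o - bt F ω o| ≤ (m + 1) * (1 / 2 ^ u) := by
      refine (Finset.sum_le_sum fun o _ => hd o).trans (le_of_eq ?_)
      rw [Finset.sum_const, Finset.card_univ, Fintype.card_option, Fintype.card_fin, nsmul_eq_mul]
      push_cast
      ring
    have h7 := h5.trans (mul_le_mul_of_nonneg_left h6 (by positivity))
    have h8 := h.pos ω (hqA ω hω)
    have h9 := h.pos ω' (hqA ω' hω')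
    rw [h4] at h9
    have h10 : |F.x ω k - F.x ω' k| ≤ 2 / 2 ^ P + 2 ^ e * ((m + 1) * (1 / 2 ^ u)) := by
      have e1 : F.x ω k - F.x ω' k = (F.x ω k - eval (bt F ω) (G (z' (slam F w ω)))) -
        (F.x ω' k - eval y (G (z' (slam F w ω)))) -
        (eval y (G (z' (slam F w ω))) - eval (bt F ω) (G (z' (slam F w ω)))) := by ring
      rw [e1]
      refine (abs_sub _ _).trans ?_
      refine (add_le_add ((abs_sub _ _).trans (add_le_add h8 h9)) h7).trans (le_of_eq ?_)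
      ring
    refine (abs_floor_sub _ _).trans ?_
    rw [← mul_sub, abs_mul, abs_of_pos hu0]
    have h11 := mul_le_mul_of_nonneg_left h10 hu0.le
    have e2 : (2 : ℝ) ^ u * (2 / 2 ^ P + 2 ^ e * ((m + 1) * (1 / 2 ^ u))) =
        2 * (2 ^ u / 2 ^ P) + 2 ^ e * (m + 1) := by
      field_simp
    have e3 : (2 : ℝ) ^ u / 2 ^ P = 2 ^ (u - P) := by
      rw [div_eq_iff (by positivity), ← pow_add]
      congr 1
      omega
    rw [e2, e3] at h11
    have h12 : (1 : ℝ) ≤ 2 ^ (u - P) := one_le_pow₀ (by norm_num)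
    have h13 : (1 : ℝ) ≤ 2 ^ e := one_le_pow₀ (by norm_num)
    rw [pow_add]
    have h14 : (2 : ℝ) ^ (u - P) ≤ 2 ^ (u - P) * 2 ^ e := le_mul_of_one_le_right (by positivity) h13
    have h15 : (2 : ℝ) ^ e ≤ 2 ^ (u - P) * 2 ^ e := le_mul_of_one_le_left (by positivity) h12
    have h16 : (2 : ℝ) ^ e * (m + 1) ≤ 2 ^ (u - P) * 2 ^ e * (m + 1) :=
      mul_le_mul_of_nonneg_right h15 (by positivity)
    have h17 : (1 : ℝ) ≤ 2 ^ (u - P) * 2 ^ e := h12.trans h14
    linarith only [h11, h14, h16, h17]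
  have h1 := CH_le_int hq.nonneg hq.sum_one (fun ω => ⌊(2 : ℝ) ^ u * F.x ω k⌋) c
    (fun _ => 2 ^ (u - P + e) * (m + 4)) hM
  rw [Ex_const hq.sum_one] at h1
  refine h1.trans ?_
  have h2 : 2 * ((2 : ℝ) ^ (u - P + e) * (m + 4)) + 1 ≤ 2 ^ (u - P + e) * (2 * m + 9) := by
    have : (1 : ℝ) ≤ 2 ^ (u - P + e) := one_le_pow₀ (by norm_num)
    nlinarith
  refine (Real.log_le_log (by positivity) h2).trans ?_
  rw [Real.log_mul (by positivity) (by positivity), Real.log_pow]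
  have e1 : ((u - P + e : ℕ) : ℝ) = (u : ℝ) - P + e := by
    push_cast [Nat.cast_sub hP]
    ring
  rw [e1]

/-- The chain rule for a vector. -/
theorem chain_le {Ω : Type} [Fintype Ω] {q : Ω → ℝ} (hq : IsLaw q) {n : ℕ} {S : Type*}
    (X : Fin n → Ω → ℤ) (Z : Ω → S) (b : Fin n → ℝ)
    (h : ∀ j, CH q (X j) (fun ω => ((fun l : Fin n => if l < j then X l ω else 0), Z ω)) ≤ b j) :
    CH q (fun ω j => X j ω) Z ≤ ∑ j, b j := by
  classical
  have h0 := hq.nonneg
  have key : ∀ j : ℕ, j ≤ n → CH q (fun ω (l : Fin n) => if (l : ℕ) < j then X l ω else 0) Z ≤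
      ∑ l ∈ univ.filter (fun l : Fin n => (l : ℕ) < j), b l := by
    intro j
    induction j with
    | zero =>
      intro _
      have e1 : univ.filter (fun l : Fin n => (l : ℕ) < 0) = ∅ := by
        ext l
        simp
      rw [e1, Finset.sum_empty]
      refine le_of_eq (CH_eq_zero h0 fun ω ω' _ _ _ => ?_)
      funext l
      simp
    | succ j ih =>
      intro hj
      have h1 := ih (by omega)
      have h2 := CH_chain h0 (X ⟨j, hj⟩) (fun ω (l : Fin n) => if (l : ℕ) < j then X l ω else 0) Z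
      have h3 : CH q (fun ω (l : Fin n) => if (l : ℕ) < j + 1 then X l ω else 0) Z ≤
          CH q (fun ω => (X ⟨j, hj⟩ ω, fun l : Fin n => if (l : ℕ) < j then X l ω else 0)) Z := by
        refine CH_mono_left h0 fun ω ω' _ _ hh => ?_
        have h4 := Prod.ext_iff.mp hh
        have h5 := Prod.ext_iff.mp h4.1
        refine funext fun l => ?_
        by_cases hl : (l : ℕ) < j
        · have h6 := congrFun h5.2 l
          simp only [if_pos hl] at h6
          simp only [if_pos (Nat.lt_succ_of_lt hl)]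
          exact h6
        · by_cases hl' : (l : ℕ) = j
          · have h7 : l = ⟨j, hj⟩ := Fin.ext hl'
            subst h7
            simp only [Nat.lt_succ_self, if_true]
            exact h5.1
          · simp only [if_neg (show ¬ (l : ℕ) < j + 1 by omega)]
      have h6 := h ⟨j, hj⟩
      have h7 : CH q (X ⟨j, hj⟩) (fun ω => ((fun l : Fin n => if (l : ℕ) < j then X l ω else 0), Z ω)) =
          CH q (X ⟨j, hj⟩) (fun ω => ((fun l : Fin n => if l < ⟨j, hj⟩ then X l ω else 0), Z ω)) := rfl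
      have e2 : univ.filter (fun l : Fin n => (l : ℕ) < j + 1) =
          insert ⟨j, hj⟩ (univ.filter (fun l : Fin n => (l : ℕ) < j)) := by
        ext l
        simp only [mem_filter, mem_univ, true_and, mem_insert, Fin.ext_iff]
        omega
      rw [e2, Finset.sum_insert (by simp)]
      linarith
  have h1 := key n le_rfl
  have e1 : univ.filter (fun l : Fin n => (l : ℕ) < n) = univ := by
    ext l
    simp
  rw [e1] at h1
  refine le_trans (le_of_eq ?_) h1
  congr 1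
  funext ω l
  rw [if_pos l.2]

/-- **Fullness below the cells**, for families. -/
theorem full_fam {F : Fam m J} {A : F.Ω → Prop} (hA : 0 < Pe F.p A) {i : ℕ} {ε : Fin i → Fin m}
    {K e w u : ℕ} {ρ P : Fin i → ℕ}
    (hlb : ∀ j, Lb F ((Iio j).image ε) (ε j) K e J w (ρ j) (P j) A)
    (hρ : ∀ j, ρ j ≤ u) (hP : ∀ j, P j ≤ u) {E : ℝ}
    (hex : ∀ (V : Type) (z : PtT F → V) (z' : LnT F → V),
      (∀ ω, A ω → z (ptr F J ω) = z' (slam F w ω)) →
      E ≤ CH (Pool.Agent.H49.Ent.cond F.p A True) (fun ω j => F.X J ω (ε j))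
        (fun ω => (z' (slam F w ω), F.W ω)))
    (V : Type) (z : PtT F → V) (z' : LnT F → V)
    (hz : ∀ ω, A ω → z (ptr F J ω) = z' (slam F w ω)) :
    E - ∑ j, (((u : ℝ) - P j + e) * Real.log 2 + Real.log (2 * m + 9)) ≤
      CH (Pool.Agent.H49.Ent.cond F.p A True) (fun ω => ceI (univ.image ε) (fun _ => J) (F.x ω))
        (fun ω => (ceI (univ.image ε) (fun _ => u) (F.x ω), z' (slam F w ω), F.W ω)) := by
  classical
  have hq := isLaw_cond F.isLaw hA
  have h0 := hq.nonneg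
  have hqA : ∀ ω, 0 < Pool.Agent.H49.Ent.cond F.p A True ω → A ω := fun ω hω =>
    of_eq_true ((cond_pos_iff F.isLaw.nonneg A True ω).1 hω).2
  choose V₁ y y' G hG using hlb
  obtain ⟨Z, hZ⟩ : ∃ Z : F.Ω → (V × (∀ j, V₁ j)) × (ℕ × F.ζ),
      Z = fun ω => ((z' (slam F w ω), fun j => y' j (slam F w ω)), F.W ω) := ⟨_, rfl⟩
  have hE := hex (V × (∀ j, V₁ j)) (fun p => (z p, fun j => y j p))
    (fun s => (z' s, fun j => y' j s)) (fun ω hω => by
      refine Prod.ext (hz ω hω) (funext fun j => ?_)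
      exact (hG j).cls ω hω)
  have hE' : E ≤ CH (Pool.Agent.H49.Ent.cond F.p A True) (fun ω j => F.X J ω (ε j)) Z := by
    rw [hZ]
    exact hE
  -- the cells
  have h1 := chain_le hq (fun (j : Fin i) ω => ⌊(2 : ℝ) ^ u * F.x ω (ε j)⌋) Z
    (fun j => ((u : ℝ) - P j + e) * Real.log 2 + Real.log (2 * m + 9)) (fun j => by
      refine one_cell (hG j) (hρ j) (hP j) hq hqA fun ω ω' _ _ hc => ?_
      have h2 := Prod.ext_iff.mp hc
      have h3 : Z ω = Z ω' := h2.2
      rw [hZ] at h3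
      have h4 := Prod.ext_iff.mp h3
      have h5 := Prod.ext_iff.mp h4.1
      refine ⟨fun k hk => ?_, congrFun h5.2 j, congrArg Prod.fst h4.2⟩
      obtain ⟨l, hl, rfl⟩ := mem_image.1 hk
      have h6 := congrFun h2.1 l
      simp only [if_pos (mem_Iio.1 hl)] at h6
      exact h6)
  -- the rest
  have h2 := CH_le_add h0 (fun ω j => F.X J ω (ε j))
    (fun ω (j : Fin i) => ⌊(2 : ℝ) ^ u * F.x ω (ε j)⌋) Z
  have h3 : CH (Pool.Agent.H49.Ent.cond F.p A True) (fun ω j => F.X J ω (ε j))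
      (fun ω => ((fun j : Fin i => ⌊(2 : ℝ) ^ u * F.x ω (ε j)⌋), Z ω)) ≤
      CH (Pool.Agent.H49.Ent.cond F.p A True) (fun ω => ceI (univ.image ε) (fun _ => J) (F.x ω))
        (fun ω => (ceI (univ.image ε) (fun _ => u) (F.x ω), z' (slam F w ω), F.W ω)) := by
    refine (CH_mono_left h0 (X' := fun ω => ceI (univ.image ε) (fun _ => J) (F.x ω))
      fun ω ω' _ _ hh => ?_).trans (CH_mono_cond h0 fun ω ω' _ _ hh => ?_)
    · have h4 := Prod.ext_iff.mp hh
      refine funext fun j => ?_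
      have h5 := congrFun h4.1 (ε j)
      unfold ceI at h5
      have h6 : ε j ∈ univ.image ε := mem_image_of_mem _ (mem_univ _)
      simp only [if_pos h6] at h5
      exact h5
    · have h4 := Prod.ext_iff.mp hh
      have h5 : Z ω = Z ω' := h4.2
      rw [hZ] at h5
      have h6 := Prod.ext_iff.mp h5
      refine Prod.ext (funext fun k => ?_) (Prod.ext (Prod.ext_iff.mp h6.1).1 h6.2)
      unfold ceI
      by_cases hk : k ∈ univ.image ε
      · obtain ⟨j, _, rfl⟩ := mem_image.1 hk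
        simp only [if_pos hk]
        exact congrFun h4.1 j
      · simp only [if_neg hk]
  linarith

/-! ### Classes -/

/-- The arithmetic of the class form. -/
theorem ful_arith {n : ℕ} {J u' c : ℕ} {s : Fin n → ℝ} {P : Fin n → ℕ} {u e ρ E X L b : ℝ}
    (hL : 0 < L) (hL1 : L ≤ 1) (hE : ((∑ j, (1 - s j)) - e) * L * J ≤ E)
    (hX : E - ∑ j, (((u' : ℝ) - P j + c) * L + b) ≤ X) (hu : (u' : ℝ) ≤ u * J + 2 * e * J + 2)
    (hP : ∀ j, (s j - e) * J - 1 ≤ P j) (hc : (c : ℝ) ≤ e * J) (hn : (0 : ℝ) ≤ e * J)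
    (hb : (n : ℝ) * (3 + b) ≤ ρ / 2 * J) (he : (4 * n + 1) * e ≤ ρ / 2) :
    n * ((1 - u) * J * L) - ρ * J ≤ X := by
  have hJ : (0 : ℝ) ≤ J := Nat.cast_nonneg J
  have h1 : ∑ j, (((u' : ℝ) - P j + c) * L + b) ≤
      ∑ j, ((u * J - s j * J + 4 * (e * J) + 3) * L + b) := by
    refine Finset.sum_le_sum fun j _ => ?_
    have h2 := hP j
    have h3 : (u' : ℝ) - P j + c ≤ u * J - s j * J + 4 * (e * J) + 3 := by nlinarith
    have h4 := mul_le_mul_of_nonneg_right h3 hL.le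
    linarith
  have h2 : ∑ j, ((u * J - s j * J + 4 * (e * J) + 3) * L + b) =
      (∑ j, (1 - s j)) * L * J - n * ((1 - u) * J * L) + n * (4 * (e * J) + 3) * L + n * b := by
    simp only [Finset.sum_add_distrib, Finset.sum_sub_distrib, ← Finset.sum_mul, Finset.sum_const,
      Finset.card_univ, Fintype.card_fin, nsmul_eq_mul]
    ring
  have h3 : (n : ℝ) * (4 * (e * J) + 3) * L ≤ n * (4 * (e * J) + 3) := by
    refine mul_le_of_le_one_right ?_ hL1
    positivity
  have h4 : e * L * J ≤ e * J := by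
    have : e * L * J = (e * J) * L := by ring
    rw [this]
    exact mul_le_of_le_one_right hn hL1
  have h5 := mul_le_mul_of_nonneg_right he hJ
  have h6 : ((∑ j, (1 - s j)) - e) * L * J = (∑ j, (1 - s j)) * L * J - e * L * J := by ring
  rw [h6] at hE
  have h7 : (n : ℝ) * (4 * (e * J) + 3) + n * b + e * J =
      (4 * n + 1) * e * J + n * (3 + b) := by ring
  have h8 : (n : ℝ) * (4 * (e * J) + 3) = 4 * n * (e * J) + n * 3 := by ring
  nlinarith

/-- Coarser cells. -/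
theorem ceI_coarse {I : Finset (Fin m)} {u u' : ℕ} (h : u ≤ u') {x x' : Fin m → ℝ}
    (hx : ceI I (fun _ => u') x = ceI I (fun _ => u') x') :
    ceI I (fun _ => u) x = ceI I (fun _ => u) x' := by
  obtain ⟨L, rfl⟩ := Nat.exists_eq_add_of_le h
  funext k
  have h1 := congrFun hx k
  unfold ceI at h1 ⊢
  by_cases hk : k ∈ I
  · simp only [if_pos hk] at h1 ⊢
    have e : ∀ v : ℝ, ⌊(2 : ℝ) ^ u * v⌋ = ⌊(2 : ℝ) ^ (u + L) * v⌋ / 2 ^ L := by
      intro v
      have h1 : (2 : ℝ) ^ u * v = (2 ^ (u + L) * v) / ((2 ^ L : ℕ) : ℝ) := by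
        push_cast
        rw [pow_add]
        field_simp
      rw [h1, Int.floor_div_natCast]
      push_cast
      rfl
    rw [e, e, h1]
  · simp only [if_neg hk]

/-- **Fullness below the cells**, for classes: `s j` the precisions, `r j` the exponents of the
radii. -/
theorem full_cls {S : PCl m}
    (hpos : ∀ (τ : ℝ) (J : ℕ) (F : Fam m J) (A : F.Ω → Prop), 0 < τ → S.St τ J F A → 0 < Pe F.p A)
    {i : ℕ} {ε : Fin i → Fin m} {w u : ℝ} {s r : Fin i → ℝ} (hu : 0 ≤ u) (hs : ∀ j, s j ≤ u)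
    (hr : ∀ j, r j ≤ u)
    (hex : ∀ ρ : ℝ, 0 < ρ → Bas S (fun J F A => ∀ (V : Type) (z : PtT F → V) (z' : LnT F → V),
      (∀ ω, A ω → z (ptr F J ω) = z' (slam F ⌊w * J⌋₊ ω)) →
      ((∑ j, (1 - s j)) - ρ) * Real.log 2 * J ≤ CH (Pool.Agent.H49.Ent.cond F.p A True)
        (fun ω j => F.X J ω (ε j)) (fun ω => (z' (slam F ⌊w * J⌋₊ ω), F.W ω))))
    (hlb : ∀ e : ℝ, 0 < e → ∃ K : ℕ, ∀ j, Bas S (fun J F A => Lb F ((Iio j).image ε) (ε j) K
      ⌊e * J⌋₊ J ⌊w * J⌋₊ ⌊min (r j + e) 1 * J⌋₊ ⌊(s j - e) * J⌋₊ A)) :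
    ∀ ρ : ℝ, 0 < ρ → Bas S (fun J F A => ∀ (V : Type) (z : PtT F → V) (z' : LnT F → V),
      (∀ ω, A ω → z (ptr F J ω) = z' (slam F ⌊w * J⌋₊ ω)) →
      (univ.image ε).card * (((J - ⌊u * J⌋₊ : ℕ) : ℝ) * Real.log 2) - ρ * J ≤
        CH (Pool.Agent.H49.Ent.cond F.p A True) (fun ω => ceI (univ.image ε) (fun _ => J) (F.x ω))
          (fun ω => (ceI (univ.image ε) (fun _ => ⌊u * J⌋₊) (F.x ω), z' (slam F ⌊w * J⌋₊ ω),
            F.W ω))) := by
  classical
  intro ρ hρ
  have hl2 : 0 < Real.log 2 := Real.log_pos one_lt_two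
  have hl1 : Real.log 2 ≤ 1 := by
    have := Real.log_two_lt_d9
    linarith
  obtain ⟨e, he⟩ : ∃ e : ℝ, e = ρ / (4 * (4 * i + 1)) := ⟨_, rfl⟩
  have he0 : 0 < e := by
    rw [he]
    positivity
  have he1 : (4 * i + 1) * e ≤ ρ / 2 / 2 := by
    rw [he]
    refine le_of_eq ?_
    field_simp
    ring
  obtain ⟨K, hK⟩ := hlb e he0
  have hall : Bas S (fun J F A => ∀ j, Lb F ((Iio j).image ε) (ε j) K
      ⌊e * J⌋₊ J ⌊w * J⌋₊ ⌊min (r j + e) 1 * J⌋₊ ⌊(s j - e) * J⌋₊ A) := by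
    have h1 := Bas.all i (S := S) (Φ := fun j J F A => ∀ h : j < i,
      Lb F ((Iio (⟨j, h⟩ : Fin i)).image ε) (ε ⟨j, h⟩) K ⌊e * J⌋₊ J ⌊w * J⌋₊
        ⌊min (r ⟨j, h⟩ + e) 1 * J⌋₊ ⌊(s ⟨j, h⟩ - e) * J⌋₊ A) (fun j hj =>
        (hK ⟨j, hj⟩).mono 0 fun J _ F A h2 _ => h2)
    exact h1.mono 0 fun J _ F A h2 j => h2 j j.2 j.2
  have hp : Bas S (fun J F A => 0 < Pe F.p A) :=
    ⟨1, one_pos, 0, fun J _ F A hA => hpos 1 J F A one_pos hA⟩
  obtain ⟨b, hb⟩ : ∃ b, b = Real.log (2 * m + 9) := ⟨_, rfl⟩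
  obtain ⟨J₂, hJ₂⟩ := exists_nat_ge ((i : ℝ) * (3 + b) / (ρ / 4))
  obtain ⟨J₃, hJ₃⟩ := exists_nat_ge ((i : ℝ) / (ρ / 2))
  refine ((hex e he0).and (hall.and hp)).mono (max J₂ J₃) fun J hJ F A h V z z' hz => ?_
  obtain ⟨h1, h2, h3⟩ := h
  have hJ0 : (0 : ℝ) ≤ J := Nat.cast_nonneg J
  have hq := isLaw_cond F.isLaw h3
  rcases le_or_gt 1 u with hu1 | hu1
  · have h4 : J - ⌊u * J⌋₊ = 0 := by
      have : J ≤ ⌊u * J⌋₊ := Nat.le_floor (by nlinarith)
      omega
    rw [h4, Nat.cast_zero, zero_mul, mul_zero, zero_sub]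
    exact (neg_nonpos.2 (mul_nonneg hρ.le hJ0)).trans (CH_nonneg hq.nonneg _ _)
  obtain ⟨u', hu'⟩ : ∃ u' : ℕ, u' = ⌊u * J⌋₊ + ⌊2 * e * J⌋₊ + 2 := ⟨_, rfl⟩
  have huJ : 0 ≤ u * J := mul_nonneg hu hJ0
  have heJ : 0 ≤ e * J := mul_nonneg he0.le hJ0
  have k1 := Nat.floor_le huJ
  have k2 := Nat.lt_floor_add_one (u * J)
  have k3 := Nat.floor_le (show 0 ≤ 2 * e * J by positivity)
  have k4 := Nat.lt_floor_add_one (2 * e * J)
  have hρ' : ∀ j, ⌊min (r j + e) 1 * J⌋₊ ≤ u' := by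
    intro j
    have h4 : min (r j + e) 1 * (J : ℝ) ≤ (u + e) * J :=
      mul_le_mul_of_nonneg_right ((min_le_left _ _).trans (by linarith [hr j])) hJ0
    refine Nat.floor_le_of_le ?_
    rw [hu']
    push_cast
    nlinarith
  have hP' : ∀ j, ⌊(s j - e) * J⌋₊ ≤ u' := by
    intro j
    have h4 : (s j - e) * (J : ℝ) ≤ u * J :=
      mul_le_mul_of_nonneg_right (by linarith [hs j]) hJ0
    refine Nat.floor_le_of_le ?_
    rw [hu']
    push_cast
    nlinarith
  have h4 := full_fam h3 h2 hρ' hP' (E := ((∑ j, (1 - s j)) - e) * Real.log 2 * J) h1 V z z' hz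
  have h5 : CH (Pool.Agent.H49.Ent.cond F.p A True)
      (fun ω => ceI (univ.image ε) (fun _ => J) (F.x ω))
      (fun ω => (ceI (univ.image ε) (fun _ => u') (F.x ω), z' (slam F ⌊w * J⌋₊ ω), F.W ω)) ≤
      CH (Pool.Agent.H49.Ent.cond F.p A True)
      (fun ω => ceI (univ.image ε) (fun _ => J) (F.x ω))
      (fun ω => (ceI (univ.image ε) (fun _ => ⌊u * J⌋₊) (F.x ω), z' (slam F ⌊w * J⌋₊ ω),
        F.W ω)) := by
    refine CH_mono_cond hq.nonneg fun ω ω' _ _ hh => ?_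
    have h6 := Prod.ext_iff.mp hh
    exact Prod.ext (ceI_coarse (by omega) h6.1) h6.2
  have hJ2 : (i : ℝ) * (3 + b) ≤ ρ / 2 / 2 * J := by
    have h6 : (i : ℝ) * (3 + b) / (ρ / 4) ≤ J :=
      hJ₂.trans (by exact_mod_cast (le_max_left _ _).trans hJ)
    rw [div_le_iff₀ (by positivity)] at h6
    linarith
  have hJ3 : (i : ℝ) ≤ ρ / 2 * J := by
    have h6 : (i : ℝ) / (ρ / 2) ≤ J :=
      hJ₃.trans (by exact_mod_cast (le_max_right _ _).trans hJ)
    rw [div_le_iff₀ (by positivity)] at h6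
    linarith
  have h45 := h4.trans h5
  rw [← hb] at h45
  have h6 := ful_arith (n := i) (J := J) (u' := u') (c := ⌊e * J⌋₊) (s := s)
    (P := fun j => ⌊(s j - e) * J⌋₊) (u := u) (e := e) (ρ := ρ / 2) (b := b) hl2 hl1 le_rfl
    h45 (by
      rw [hu']
      push_cast
      linarith only [k1, k3]) (fun j => by
      have := Nat.lt_floor_add_one ((s j - e) * (J : ℝ))
      linarith) (Nat.floor_le heJ) heJ hJ2 he1
  have h7 : ((univ.image ε).card : ℝ) ≤ i := by
    have := Finset.card_image_le (s := (univ : Finset (Fin i))) (f := ε)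
    rw [Finset.card_univ, Fintype.card_fin] at this
    exact_mod_cast this
  have h8 : ((J - ⌊u * J⌋₊ : ℕ) : ℝ) ≤ (1 - u) * J + 1 := by
    have h9 : ⌊u * J⌋₊ ≤ J := Nat.floor_le_of_le (by nlinarith)
    rw [Nat.cast_sub h9]
    linarith
  have h9 : (0 : ℝ) ≤ ((J - ⌊u * J⌋₊ : ℕ) : ℝ) * Real.log 2 := by positivity
  have h10 : ((univ.image ε).card : ℝ) * (((J - ⌊u * J⌋₊ : ℕ) : ℝ) * Real.log 2) ≤
      i * (((1 - u) * J + 1) * Real.log 2) :=
    mul_le_mul h7 (mul_le_mul_of_nonneg_right h8 hl2.le) h9 (Nat.cast_nonneg i)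
  have h11 : (i : ℝ) * (((1 - u) * J + 1) * Real.log 2) =
      i * ((1 - u) * J * Real.log 2) + i * Real.log 2 := by ring
  have h12 : (i : ℝ) * Real.log 2 ≤ i := mul_le_of_le_one_right (Nat.cast_nonneg i) hl1
  linarith

end Pool.EXW
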